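import Pool.Agent.Helper65.HF.StA

/-!
Module DRV of project HF: strong stability of the generic ideal.
-/

namespace Pool.Agent.Helper34.HF

open MvPolynomial Pool.Agent.Helper45 Pool.Agent.Helper65.HF

section General

variable {k R : Type} [Field k] [CommRing R] [Algebra k R] {N : ℕ}

/-- a derivation acting on coefficients -/
noncomputable def De (δ : Derivation k R R) (f : MvPolynomial (Fin N) R) :
    MvPolynomial (Fin N) R := ∑ b ∈ f.support, monomial b (δ (coeff b f))

lemma coeff_De (δ : Derivation k R R) (f : MvPolynomial (Fin N) R) (b : Fin N →₀ ℕ) :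
    coeff b (De δ f) = δ (coeff b f) := by
  classical
  unfold De
  rw [coeff_sum]
  simp only [coeff_monomial]
  rw [Finset.sum_ite_eq']
  split_ifs with h
  · rfl
  · rw [notMem_support_iff.1 h, map_zero]

lemma De_zero (δ : Derivation k R R) : De (N := N) δ 0 = 0 := by
  ext b
  rw [coeff_De, coeff_zero, map_zero]

lemma De_add (δ : Derivation k R R) (f g : MvPolynomial (Fin N) R) :
    De δ (f + g) = De δ f + De δ g := by
  ext b
  simp only [coeff_De, coeff_add, map_add]

lemma De_mul (δ : Derivation k R R) (f g : MvPolynomial (Fin N) R) :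
    De δ (f * g) = f * De δ g + g * De δ f := by
  classical
  rw [mul_comm g]
  ext b
  rw [coeff_De, coeff_add, coeff_mul, coeff_mul, coeff_mul, map_sum, ← Finset.sum_add_distrib]
  refine Finset.sum_congr rfl fun x _ => ?_
  rw [coeff_De, coeff_De, Derivation.leibniz, smul_eq_mul, smul_eq_mul]
  ring

lemma De_C (δ : Derivation k R R) (a : R) : De (N := N) δ (C a) = C (δ a) := by
  classical
  ext b
  rw [coeff_De, coeff_C, coeff_C]
  split_ifs <;> simp

lemma De_X (δ : Derivation k R R) (u : Fin N) : De δ (X u : MvPolynomial (Fin N) R) = 0 := by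
  classical
  ext b
  rw [coeff_De, coeff_X, coeff_zero]
  split_ifs <;> simp

/-- the derivation of the polynomial ring -/
noncomputable def DD (δ : Derivation k R R) (s t : Fin N) (f : MvPolynomial (Fin N) R) :
    MvPolynomial (Fin N) R := De δ f + X s * pderiv t f

lemma DD_zero (δ : Derivation k R R) (s t : Fin N) : DD δ s t 0 = 0 := by
  rw [DD, De_zero, map_zero, mul_zero, add_zero]

lemma DD_add (δ : Derivation k R R) (s t : Fin N) (f g : MvPolynomial (Fin N) R) :
    DD δ s t (f + g) = DD δ s t f + DD δ s t g := by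
  rw [DD, DD, DD, De_add, map_add]
  ring

lemma DD_mul (δ : Derivation k R R) (s t : Fin N) (f g : MvPolynomial (Fin N) R) :
    DD δ s t (f * g) = f * DD δ s t g + g * DD δ s t f := by
  rw [DD, DD, DD, De_mul, Derivation.leibniz, smul_eq_mul, smul_eq_mul]
  ring

lemma DD_one (δ : Derivation k R R) (s t : Fin N) : DD δ s t 1 = 0 := by
  have h := DD_mul δ s t 1 1
  rw [one_mul, one_mul] at h
  exact left_eq_add.1 h

lemma DD_pow (δ : Derivation k R R) (s t : Fin N) (f : MvPolynomial (Fin N) R)
    (h : DD δ s t f = 0) : ∀ j : ℕ, DD δ s t (f ^ j) = 0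
  | 0 => by rw [pow_zero, DD_one]
  | j + 1 => by rw [pow_succ, DD_mul, h, DD_pow δ s t f h j, mul_zero, mul_zero, add_zero]

lemma DD_sum (δ : Derivation k R R) (s t : Fin N) {ι : Type} (F : Finset ι)
    (g : ι → MvPolynomial (Fin N) R) : DD δ s t (∑ u ∈ F, g u) = ∑ u ∈ F, DD δ s t (g u) := by
  classical
  induction F using Finset.induction_on with
  | empty => rw [Finset.sum_empty, Finset.sum_empty, DD_zero]
  | insert a F ha ih => rw [Finset.sum_insert ha, Finset.sum_insert ha, DD_add, ih]

lemma coeff_DD (δ : Derivation k R R) (s t : Fin N) (f : MvPolynomial (Fin N) R)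
    (b : Fin N →₀ ℕ) : coeff b (DD δ s t f) = δ (coeff b f) +
      if 1 ≤ b s then coeff (b - Finsupp.single s 1 + Finsupp.single t 1) f *
        (((b - Finsupp.single s 1 : Fin N →₀ ℕ) t : R) + 1) else 0 := by
  classical
  rw [DD, coeff_add, coeff_De, coeff_X_mul']
  congr 1
  by_cases h : 1 ≤ b s
  · rw [if_pos h, if_pos (Finsupp.mem_support_iff.2 (by omega)), coeff_pderiv]
  · rw [if_neg h, if_neg (by rw [Finsupp.mem_support_iff]; omega)]

end General

/-- the derivation of the coefficient ring -/
noncomputable def dl (k : Type) [Field k] (s t : ℕ) :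
    Derivation k (MvPolynomial (ℕ × ℕ) k) (MvPolynomial (ℕ × ℕ) k) :=
  mkDerivation k (fun p => if p.2 = s then - X (p.1, t) else 0)

lemma DD_lf (k : Type) [Field k] {N : ℕ} (s t : Fin N) (i : ℕ) :
    DD (dl k s t) s t (lf (gP k) N i) = 0 := by
  classical
  unfold lf
  rw [DD_sum]
  have h : ∀ u : Fin N, DD (dl k s t) s t (C (gP k i u) * X u) =
      (if u = s then - C (X (i, (t : ℕ))) * X s else 0) +
      (if u = t then X s * C (X (i, (t : ℕ))) else 0) := by
    intro u
    have e1 : dl k s t (gP k i u) = if u = s then - X (i, (t : ℕ)) else 0 := by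
      unfold dl gP
      rw [mkDerivation_X]
      by_cases hu : u = s
      · rw [if_pos hu, if_pos (by rw [hu])]
      · rw [if_neg hu, if_neg (fun h => hu (Fin.ext h))]
    rw [DD, De_mul, De_C, De_X, mul_zero, zero_add, Derivation.leibniz, smul_eq_mul, smul_eq_mul,
      pderiv_C, mul_zero, add_zero, pderiv_X, e1]
    congr 1
    · by_cases hu : u = s
      · rw [if_pos hu, if_pos hu, hu, map_neg]
        ring
      · rw [if_neg hu, if_neg hu, map_zero, mul_zero]
    · by_cases hu : u = t
      · rw [if_pos hu, hu, Pi.single_eq_same, mul_one]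
        rfl
      · rw [if_neg hu, Pi.single_eq_of_ne hu, mul_zero, mul_zero]
  rw [Finset.sum_congr rfl fun u _ => h u, Finset.sum_add_distrib, Finset.sum_ite_eq',
    Finset.sum_ite_eq', if_pos (Finset.mem_univ _), if_pos (Finset.mem_univ _)]
  ring

lemma DD_mem (k : Type) [Field k] {j N r : ℕ} (s t : Fin N)
    {f : MvPolynomial (Fin N) (MvPolynomial (ℕ × ℕ) k)} (hf : f ∈ idl (gP k) j N r) :
    DD (dl k s t) s t f ∈ idl (gP k) j N r := by
  unfold idl at hf
  refine Submodule.span_induction (p := fun f _ => DD (dl k s t) s t f ∈ idl (gP k) j N r)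
    ?_ ?_ ?_ ?_ hf
  · rintro f ⟨i, _, rfl⟩
    rw [DD_pow _ _ _ _ (DD_lf k s t i)]
    exact zero_mem _
  · rw [DD_zero]
    exact zero_mem _
  · intro f g _ _ h1 h2
    rw [DD_add]
    exact add_mem h1 h2
  · intro a f hf h1
    rw [smul_eq_mul, DD_mul]
    exact add_mem (Ideal.mul_mem_left _ _ h1) (Ideal.mul_mem_right _ _ hf)

theorem hDRV : Pool.Agent.Helper65.HF.sDRV := by
  intro hRLO k _ _ j N r m s t hst hmt hLd
  classical
  obtain ⟨-, htr, -, hadd, hmv⟩ := hRLO N
  obtain ⟨f, hfJ, hfh, hfm, hf0⟩ := hLd
  have hle : Finsupp.single t 1 ≤ m := by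
    rw [Finsupp.single_le_iff]
    exact hmt
  have hmm' : RL m (m - Finsupp.single t 1 + Finsupp.single s 1) := hmv m s t hst hmt
  have hdeg : (m - Finsupp.single t 1 + Finsupp.single s 1).degree = m.degree := by
    conv_rhs => rw [← tsub_add_cancel_of_le hle]
    rw [map_add, map_add, Finsupp.degree_single, Finsupp.degree_single]
  refine ⟨DD (dl k s t) s t f, DD_mem k s t hfJ, ?_, ?_, ?_⟩
  · rw [hdeg]
    intro b hb
    by_contra hne
    apply hb
    have hne' : b.degree ≠ m.degree := by
      intro h
      apply hne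
      rw [← h, Finsupp.degree_eq_weight_one]
      rfl
    rw [coeff_DD, hfh.coeff_eq_zero hne', map_zero, zero_add]
    split_ifs with hbs
    · have hle2 : Finsupp.single s 1 ≤ b := by
        rw [Finsupp.single_le_iff]
        exact hbs
      have hd2 : (b - Finsupp.single s 1 + Finsupp.single t 1).degree = b.degree := by
        conv_rhs => rw [← tsub_add_cancel_of_le hle2]
        rw [map_add, map_add, Finsupp.degree_single, Finsupp.degree_single]
      rw [hfh.coeff_eq_zero (by rw [hd2]; exact hne'), zero_mul]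
    · rfl
  · rw [coeff_DD, hf0 _ hmm', map_zero, zero_add, if_pos (by
      rw [Finsupp.add_apply, Finsupp.single_eq_same]; omega), add_tsub_cancel_right,
      tsub_add_cancel_of_le hle]
    refine mul_ne_zero hfm ?_
    exact Nat.cast_add_one_ne_zero _
  · intro b hb
    rw [coeff_DD, hf0 b (htr _ _ _ hmm' hb), map_zero, zero_add]
    split_ifs with hbs
    · have hle2 : Finsupp.single s 1 ≤ b := by
        rw [Finsupp.single_le_iff]
        exact hbs
      have h1 : RL m (b - Finsupp.single s 1 + Finsupp.single t 1) := by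
        rw [← hadd m _ (Finsupp.single s 1)]
        have e1 : m + Finsupp.single s 1 =
            (m - Finsupp.single t 1 + Finsupp.single s 1) + Finsupp.single t 1 := by
          conv_lhs => rw [← tsub_add_cancel_of_le hle]
          rw [add_right_comm]
        have e2 : b - Finsupp.single s 1 + Finsupp.single t 1 + Finsupp.single s 1 =
            b + Finsupp.single t 1 := by
          conv_rhs => rw [← tsub_add_cancel_of_le hle2]
          rw [add_right_comm]
        rw [e1, e2, hadd]
        exact hb
      rw [hf0 _ h1, zero_mul]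
    · rfl

end Pool.Agent.Helper34.HF
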